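import Pool.Agent.Q166.Had.Op

/-!
# Special Hadamard operators without a regular choice of the p-to-2 constants

For every `k ∈ (0, 1]` (in particular for `k = 1`, the unitary case) there is a special
`k`-Hadamard operator on `ℝ` for which every admissible constant at every `p ∈ [1,2]` is at
most `1`; hence no strictly decreasing choice of admissible constants tending to `1` exists.
-/

namespace Pool.Agent.Results.MP_977787_an.NoRegularChoice

open MeasureTheory Set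
open scoped InnerProductSpace ENNReal

open Pool.Agent.Q166.Had

noncomputable section

/-- The Hilbert space `L²(ℝ)`. -/
abbrev L2R : Type := Lp ℂ 2 (volume : Measure ℝ)

/-- The `L^p` norm of an element of `L²(ℝ)`, with values in `[0, ∞]`. -/
def nrm (p : ℝ≥0∞) (f : L2R) : ℝ≥0∞ := eLpNorm f p volume

/-- The adjoint of a bounded operator on `L²(ℝ)`. -/
def adj (A : L2R →L[ℂ] L2R) : L2R →L[ℂ] L2R := ContinuousLinearMap.adjoint A

/-- `A` is bounded from `L¹` to `L^∞` with constant `C` (on `L¹ ∩ L²`, which is dense in `L¹`). -/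
def BddOneInfty (A : L2R →L[ℂ] L2R) (C : ℝ≥0∞) : Prop := ∀ f : L2R, nrm ∞ (A f) ≤ C * nrm 1 f

/-- `B` is the adjoint of `A`, and `B A = A B = k`, that is `A` is invertible and `A* = k A⁻¹`. -/
def AdjointIsScaledInverse {H : Type*} [NormedAddCommGroup H] [InnerProductSpace ℂ H] (k : ℝ)
    (A B : H →L[ℂ] H) : Prop :=
  (∀ x y, inner ℂ (A x) y = inner ℂ x (B y)) ∧ (∀ x, B (A x) = (k : ℂ) • x) ∧
    ∀ x, A (B x) = (k : ℂ) • x

/-- Special `k`-Hadamard operators on `ℝ`: `‖A‖_{1→∞} ≤ 1`, `A` is bounded and invertible on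
`L²(ℝ)` with adjoint `A* = k A⁻¹`, and `A*` is bounded from `L¹` to `L^∞`. -/
def IsSpecialHadamard (k : ℝ) (A : L2R →L[ℂ] L2R) : Prop :=
  BddOneInfty A 1 ∧ ∃ B : L2R →L[ℂ] L2R, AdjointIsScaledInverse k A B ∧
    ∃ C : ℝ≥0∞, C ≠ ∞ ∧ BddOneInfty B C

/-- The ratio `‖f‖_p ‖Af‖_p / (‖f‖_2 ‖Af‖_2)`. -/
def ratio (A : L2R →L[ℂ] L2R) (p : ℝ) (f : L2R) : ℝ :=
  ((nrm (ENNReal.ofReal p) f).toReal * (nrm (ENNReal.ofReal p) (A f)).toReal) /
    ((nrm 2 f).toReal * (nrm 2 (A f)).toReal)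

/-- `C` is admissible for `(A, p)`. -/
def Admissible (A : L2R →L[ℂ] L2R) (p C : ℝ) : Prop :=
  0 < C ∧ ∀ f : L2R, f ≠ 0 → nrm (ENNReal.ofReal p) f ≠ ∞ → nrm (ENNReal.ofReal p) (A f) ≠ ∞ →
    C ≤ ratio A p f

/-- `C` is a choice of admissible constants on `(2 - σ, 2]` as required in the question. -/
def RegularChoice (A : L2R →L[ℂ] L2R) (σ : ℝ) (C : ℝ → ℝ) : Prop :=
  (∀ p ∈ Ioc (2 - σ) 2, Admissible A p (C p)) ∧ C 2 = 1 ∧
    Filter.Tendsto C (nhdsWithin 2 (Iio 2)) (nhds 1) ∧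
    DifferentiableOn ℝ C (Ioo (2 - σ) 2) ∧ StrictAntiOn C (Ioo (2 - σ) 2)

/-- The norm of the basic test function. -/
theorem nrm_test (T : ℝ) (hT : 0 < T) (p : ℝ) (hp : 1 ≤ p) :
    nrm (ENNReal.ofReal p) (bL T (0, 0)) = ENNReal.ofReal ((Real.sqrt T)⁻¹ * T ^ (1 / p)) := by
  have h1 : nrm (ENNReal.ofReal p) (bL T (0, 0))
      = eLpNorm (bfun T (0, 0)) (ENNReal.ofReal p) volume :=
    eLpNorm_congr_ae (memLp_bfun T (0, 0) 2).coeFn_toLp
  have h2 : bfun T (0, 0) = (Ioc (0 : ℝ) T).indicator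
      (fun _ => (((Real.sqrt T)⁻¹ : ℝ) : ℂ)) := by
    unfold bfun
    simp
  have hp0 : 0 < p := by linarith
  have hpne : ENNReal.ofReal p ≠ 0 := by
    rw [Ne, ENNReal.ofReal_eq_zero]
    linarith
  rw [h1, h2, eLpNorm_indicator_const measurableSet_Ioc hpne ENNReal.ofReal_ne_top,
    Real.volume_Ioc, sub_zero, ENNReal.toReal_ofReal hp0.le, ENNReal.ofReal_rpow_of_pos hT]
  rw [ENNReal.ofReal_mul (by positivity)]
  congr 1
  rw [← ofReal_norm, Complex.norm_real, Real.norm_of_nonneg (by positivity)]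

theorem nrm_smul (c : ℝ) (hc : 0 ≤ c) (p : ℝ≥0∞) (f : L2R) :
    nrm p ((c : ℂ) • f) = ENNReal.ofReal c * nrm p f := by
  unfold nrm
  rw [eLpNorm_congr_ae (Lp.coeFn_smul (c : ℂ) f), eLpNorm_const_smul]
  congr 1
  rw [← ofReal_norm, Complex.norm_real, Real.norm_of_nonneg hc]

/-- Passing from the almost everywhere bound to the norm bound. -/
theorem bddOneInfty_of (V : L2R →L[ℂ] L2R) (C : ℝ) (hC : 0 < C)
    (hV : ∀ f : L2R, Integrable f volume → ∀ᵐ x ∂(volume : Measure ℝ),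
      ‖(V f : ℝ → ℂ) x‖ ≤ C * ∫ x, ‖f x‖) : BddOneInfty V (ENNReal.ofReal C) := by
  intro f
  by_cases hf : Integrable f volume
  · unfold nrm
    rw [eLpNorm_exponent_top]
    refine (eLpNormEssSup_le_of_ae_bound (hV f hf)).trans (le_of_eq ?_)
    rw [ENNReal.ofReal_mul hC.le, eLpNorm_one_eq_lintegral_enorm]
    congr 1
    rw [ofReal_integral_norm_eq_lintegral_enorm hf]
  · have h1 : nrm 1 f = ∞ := by
      by_contra hne
      apply hf
      rw [← memLp_one_iff_integrable]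
      exact ⟨Lp.aestronglyMeasurable f, lt_top_iff_ne_top.mpr hne⟩
    rw [h1, ENNReal.mul_top (by
      rw [Ne, ENNReal.ofReal_eq_zero]
      linarith)]
    exact le_top

/-- The operator: `bL k p ↦ √k bL 1 (p.2, -p.1)`. -/
theorem exists_operator (k : ℝ) (hk : 0 < k) :
    ∃ A : L2R →L[ℂ] L2R,
      (∀ p, A (bL k p) = ((Real.sqrt k : ℝ) : ℂ) • bL 1 (p.2, -p.1)) ∧
      (∀ p, adj A (bL 1 p) = ((Real.sqrt k : ℝ) : ℂ) • bL k (-p.2, p.1)) ∧
      (∀ f, adj A (A f) = (k : ℂ) • f) ∧ (∀ f, A (adj A f) = (k : ℂ) • f) := by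
  have hinj : Function.Injective (fun p : ℤ × ℤ => (p.2, -p.1)) := by
    intro p q h
    simp only [Prod.mk.injEq, neg_inj] at h
    exact Prod.ext h.2 h.1
  have hon : Orthonormal ℂ (fun p : ℤ × ℤ => bL 1 (p.2, -p.1)) :=
    (orthonormal_bL 1 one_pos).comp _ hinj
  have hrange : Set.range (fun p : ℤ × ℤ => bL 1 (p.2, -p.1)) = Set.range (bL 1) := by
    ext x
    constructor
    · rintro ⟨p, rfl⟩
      exact ⟨_, rfl⟩
    · rintro ⟨p, rfl⟩
      refine ⟨(-p.2, p.1), ?_⟩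
      simp
  have hbot : (Submodule.span ℂ (Set.range (fun p : ℤ × ℤ => bL 1 (p.2, -p.1))))ᗮ = ⊥ := by
    rw [hrange]
    exact span_bL_orthogonal 1 one_pos
  let e' : HilbertBasis (ℤ × ℤ) ℂ L2R := HilbertBasis.mkOfOrthogonalEqBot hon hbot
  have he' : ∀ p, e' p = bL 1 (p.2, -p.1) := by
    intro p
    have : ⇑e' = (fun p : ℤ × ℤ => bL 1 (p.2, -p.1)) :=
      HilbertBasis.coe_mkOfOrthogonalEqBot _ _
    rw [this]
  let W : L2R ≃ₗᵢ[ℂ] L2R := (bB k hk).repr.trans e'.repr.symm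
  have hW : ∀ p, W (bL k p) = bL 1 (p.2, -p.1) := by
    intro p
    classical
    change e'.repr.symm ((bB k hk).repr (bL k p)) = _
    rw [← bB_apply k hk, HilbertBasis.repr_self, HilbertBasis.repr_symm_single, he']
  have hWs : ∀ p, W.symm (bL 1 p) = bL k (-p.2, p.1) := by
    intro p
    rw [LinearIsometryEquiv.symm_apply_eq, hW]
    simp
  have hs : (((Real.sqrt k : ℝ) : ℂ)) * ((Real.sqrt k : ℝ) : ℂ) = (k : ℂ) := by
    rw [← Complex.ofReal_mul, Real.mul_self_sqrt hk.le]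
  let A : L2R →L[ℂ] L2R := ((Real.sqrt k : ℝ) : ℂ) • (W : L2R →L[ℂ] L2R)
  have hadj : adj A = ((Real.sqrt k : ℝ) : ℂ) • (W.symm : L2R →L[ℂ] L2R) := by
    change ContinuousLinearMap.adjoint (((Real.sqrt k : ℝ) : ℂ) • (W : L2R →L[ℂ] L2R)) = _
    rw [map_smulₛₗ, Complex.conj_ofReal]
    congr 1
    exact LinearIsometryEquiv.adjoint_eq_symm W
  have hA : ∀ f, A f = ((Real.sqrt k : ℝ) : ℂ) • W f := fun f => rfl
  have hadj' : ∀ f, adj A f = ((Real.sqrt k : ℝ) : ℂ) • W.symm f := by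
    intro f
    rw [hadj]
    rfl
  refine ⟨A, ?_, ?_, ?_, ?_⟩
  · intro p
    rw [hA, hW]
  · intro p
    rw [hadj', hWs]
  · intro f
    rw [hadj', hA, map_smul, LinearIsometryEquiv.symm_apply_apply, smul_smul, hs]
  · intro f
    rw [hadj', hA, map_smul, LinearIsometryEquiv.apply_symm_apply, smul_smul, hs]

/-- **Main theorem.** For every `k ∈ (0, 1]` there is a special `k`-Hadamard operator `A` on `ℝ`
such that for every `p ∈ [1, 2]` every admissible constant for `(A, p)` is at most `1`, and such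
that for no `σ ∈ (0, 1]` is there a regular choice of admissible constants. -/
theorem result (k : ℝ) (hk : 0 < k) (hk1 : k ≤ 1) :
    ∃ A : L2R →L[ℂ] L2R, IsSpecialHadamard k A ∧
      (∀ p ∈ Icc (1 : ℝ) 2, ∀ C : ℝ, Admissible A p C → C ≤ 1) ∧
      ¬ ∃ σ ∈ Ioc (0 : ℝ) 1, ∃ C : ℝ → ℝ, RegularChoice A σ C := by
  obtain ⟨A, hA, hAadj, h1, h2⟩ := exists_operator k hk
  have hsk : 0 < Real.sqrt k := Real.sqrt_pos.mpr hk
  have hA0 : A (bL k (0, 0)) = ((Real.sqrt k : ℝ) : ℂ) • bL 1 (0, 0) := by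
    rw [hA]; simp
  have hadm : ∀ p ∈ Icc (1 : ℝ) 2, ∀ C : ℝ, Admissible A p C → C ≤ 1 := by
    intro p hp C hC
    have hne : bL k (0, 0) ≠ 0 := (orthonormal_bL k hk).ne_zero _
    have e1 := nrm_test k hk p hp.1
    have e2 := nrm_test k hk 2 (by norm_num)
    have e3 := nrm_test 1 one_pos p hp.1
    have e4 := nrm_test 1 one_pos 2 (by norm_num)
    have e5 : ENNReal.ofReal 2 = 2 := by norm_num
    rw [e5] at e2 e4
    have h3 := hC.2 (bL k (0, 0)) hne (by rw [e1]; exact ENNReal.ofReal_ne_top) (by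
      rw [hA0, nrm_smul _ hsk.le, e3]
      exact ENNReal.mul_ne_top ENNReal.ofReal_ne_top ENNReal.ofReal_ne_top)
    refine h3.trans ?_
    unfold ratio
    rw [hA0, nrm_smul _ hsk.le, nrm_smul _ hsk.le, e1, e2, e3, e4]
    simp only [Real.sqrt_one, inv_one, Real.one_rpow, mul_one, ENNReal.ofReal_one]
    rw [ENNReal.toReal_ofReal (by positivity), ENNReal.toReal_ofReal (by positivity),
      ENNReal.toReal_ofReal (by positivity)]
    have h4 : k ^ (1 / p) ≤ k ^ (1 / (2 : ℝ)) := by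
      apply Real.rpow_le_rpow_of_exponent_ge hk hk1
      exact one_div_le_one_div_of_le (by linarith [hp.1]) hp.2
    rw [div_le_one (by positivity)]
    apply mul_le_mul_of_nonneg_right _ hsk.le
    exact mul_le_mul_of_nonneg_left h4 (by positivity)
  refine ⟨A, ⟨?_, adj A, ⟨fun x y => (ContinuousLinearMap.adjoint_inner_right A x y).symm,
    h1, h2⟩, 1, by simp, ?_⟩, hadm, ?_⟩
  · have h5 := bddOneInfty_of A 1 one_pos (by
      intro f hf
      have h6 := bound_infty k 1 hk one_pos (Real.sqrt k) hsk.le 1 (Or.inl rfl) A (by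
        intro p
        rw [hA]
        simp) f hf
      have h7 : Real.sqrt k * (Real.sqrt k)⁻¹ * (Real.sqrt 1)⁻¹ = 1 := by
        rw [mul_inv_cancel₀ hsk.ne', Real.sqrt_one, inv_one, mul_one]
      rw [h7] at h6
      exact h6)
    rwa [ENNReal.ofReal_one] at h5
  · have h5 := bddOneInfty_of (adj A) 1 one_pos (by
      intro f hf
      have h6 := bound_infty 1 k one_pos hk (Real.sqrt k) hsk.le (-1) (Or.inr rfl) (adj A) (by
        intro p
        rw [hAadj]
        simp) f hf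
      have h7 : Real.sqrt k * (Real.sqrt 1)⁻¹ * (Real.sqrt k)⁻¹ = 1 := by
        rw [Real.sqrt_one, inv_one, mul_one, mul_inv_cancel₀ hsk.ne']
      rw [h7] at h6
      exact h6)
    rwa [ENNReal.ofReal_one] at h5
  · rintro ⟨σ, hσ, C, hC, -, hlim, -, hanti⟩
    -- pick two points in the interval
    set p := 2 - σ / 2 with hp
    set q := 2 - σ / 4 with hq
    have hpI : p ∈ Ioo (2 - σ) 2 := ⟨by rw [hp]; linarith [hσ.1], by rw [hp]; linarith [hσ.1]⟩
    have hqI : q ∈ Ioo (2 - σ) 2 := ⟨by rw [hq]; linarith [hσ.1], by rw [hq]; linarith [hσ.1]⟩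
    have hpq : p < q := by rw [hp, hq]; linarith [hσ.1]
    have h8 : C q < C p := hanti hpI hqI hpq
    have h9 : 1 ≤ C q := by
      refine le_of_tendsto hlim ?_
      have h10 : Ioo q 2 ∈ nhdsWithin (2 : ℝ) (Iio 2) := Ioo_mem_nhdsLT hqI.2
      filter_upwards [h10] with r hr
      exact (hanti hqI ⟨lt_trans hqI.1 hr.1, hr.2⟩ hr.1).le
    have h11 : C p ≤ 1 := by
      refine hadm p ⟨?_, hpI.2.le⟩ (C p) (hC p ⟨hpI.1, hpI.2.le⟩)
      rw [hp]; linarith [hσ.2, hσ.1]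
    linarith

end

end Pool.Agent.Results.MP_977787_an.NoRegularChoice
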